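import Pool.Agent.helper7.Alm.Final

set_option autoImplicit false
open scoped Classical

/-!
# MP_74284e_pr: three-dimensional dyadic tilings with a small fraction of unavailable boxes

Law of large numbers for the least fraction of unavailable boxes in a tiling, and a unique critical
point for the tilings in which at most a fraction `d` of the boxes is unavailable, `0 < d < 1`.
-/

namespace Pool.Agent.Results.MP_74284e_pr.AlmostTilings

open Finset Filter

/-- A dyadic box is given by its levels `k i` and its positions `a i`: it is the product of the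
intervals `[a i / 2 ^ k i, (a i + 1) / 2 ^ k i]`. -/
abbrev Box : Type := (Fin 3 → ℕ) × (Fin 3 → ℕ)

/-- The order of a box, the sum of its levels. -/
def order (B : Box) : ℕ := ∑ i, B.1 i

/-- The dyadic boxes of order `n` in the unit cube. -/
noncomputable def boxes (n : ℕ) : Finset Box :=
  ((Fintype.piFinset fun _ => range (n + 1)) ×ˢ (Fintype.piFinset fun _ => range (2 ^ n))).filter
    fun B => order B = n ∧ ∀ i, B.2 i < 2 ^ B.1 i

/-- The cell `x` is contained in the box `B` (whose levels are at most `n`); the cells are the cubes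
of side `2 ^ (-n)` of the unit cube, given by their positions `x i < 2 ^ n`. -/
def Has (n : ℕ) (B : Box) (x : Fin 3 → Fin (2 ^ n)) : Prop :=
  ∀ i, (x i : ℕ) / 2 ^ (n - B.1 i) = B.2 i

/-- The boxes of `R` tile the unit cube. -/
def Tiling (n : ℕ) (R : Finset Box) : Prop := ∀ x : Fin 3 → Fin (2 ^ n), ∃! b, b ∈ R ∧ Has n b x

/-- The probability that the unit cube has a tiling by available boxes of order `n`, if each dyadic
box of order `n` is available independently with probability `p`. -/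
noncomputable def T (n : ℕ) (p : ℝ) : ℝ :=
  ∑ S ∈ (boxes n).powerset.filter (fun S => ∃ R ⊆ S, Tiling n R),
    p ^ S.card * (1 - p) ^ ((boxes n).card - S.card)

/-- The probability that the unit cube has a tiling by boxes of order `n` of which at most
`d * 2 ^ n` are not available. -/
noncomputable def Td (d : ℝ) (n : ℕ) (p : ℝ) : ℝ :=
  ∑ S ∈ (boxes n).powerset.filter
      (fun S => ∃ R ⊆ boxes n, Tiling n R ∧ ((R \ S).card : ℝ) ≤ d * 2 ^ n),
    p ^ S.card * (1 - p) ^ ((boxes n).card - S.card)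

/-- The critical point: the infimum of all `p` for which `f n p` tends to `1`. -/
noncomputable def crit (f : ℕ → ℝ → ℝ) : ℝ :=
  sInf {p : ℝ | 0 ≤ p ∧ p ≤ 1 ∧ Tendsto (fun n => f n p) atTop (nhds 1)}

section

open Pool.Agent.helper17.Dya Pool.Agent.helper17.DyS Pool.Agent.helper7.Alm

lemma mem_boxes {n : ℕ} {B : Box} : B ∈ boxes n ↔ Vl n B := by
  unfold boxes
  rw [mem_filter, mem_product, Fintype.mem_piFinset, Fintype.mem_piFinset]
  constructor
  · rintro ⟨-, h1, h2⟩
    exact ⟨h1, h2⟩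
  · intro h
    exact ⟨⟨fun i => mem_range.2 (Nat.lt_succ_of_le (h.le i)), fun i => mem_range.2 (h.lt i)⟩,
      h.1, h.2⟩

/-- the embedding of the boxes of order `n` -/
def emb (n : ℕ) : It n ↪ Box := ⟨Subtype.val, Subtype.val_injective⟩

lemma boxes_eq (n : ℕ) : boxes n = (univ : Finset (It n)).map (emb n) := by
  ext B
  rw [mem_boxes, Finset.mem_map]
  constructor
  · intro h
    exact ⟨⟨B, h⟩, mem_univ _, rfl⟩
  · rintro ⟨b, -, rfl⟩
    exact b.2

lemma filter_map_eq {n : ℕ} {S : Finset Box} (h1 : S ⊆ boxes n) :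
    (univ.filter fun b : It n => b.1 ∈ S).map (emb n) = S := by
  ext B
  rw [Finset.mem_map]
  constructor
  · rintro ⟨b, hb, rfl⟩
    exact (mem_filter.1 hb).2
  · intro hB
    exact ⟨⟨B, mem_boxes.1 (h1 hB)⟩, mem_filter.2 ⟨mem_univ _, hB⟩, rfl⟩

lemma sum_eq (n : ℕ) (p : ℝ) (Q : Finset Box → Prop) :
    ∑ S ∈ (boxes n).powerset.filter Q, p ^ S.card * (1 - p) ^ ((boxes n).card - S.card) =
      Pr p fun ω : It n → Bool => Q ((univ.filter fun b => ω b = true).map (emb n)) := by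
  rw [← sum_powerset_eq (p := p) (univ : Finset (It n)) (fun S => Q (S.map (emb n)))]
  refine sum_nbij' (fun S => univ.filter fun b : It n => b.1 ∈ S) (fun S => S.map (emb n))
    ?_ ?_ ?_ ?_ ?_
  · intro S hS
    obtain ⟨h1, h2⟩ := mem_filter.1 hS
    rw [mem_powerset] at h1
    refine mem_filter.2 ⟨mem_powerset.2 (subset_univ _), ?_⟩
    rwa [filter_map_eq h1]
  · intro S hS
    refine mem_filter.2 ⟨mem_powerset.2 ?_, (mem_filter.1 hS).2⟩
    rw [boxes_eq]
    exact map_subset_map.2 (subset_univ _)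
  · intro S hS
    exact filter_map_eq (mem_powerset.1 (mem_filter.1 hS).1)
  · intro S _
    ext b
    rw [mem_filter, Finset.mem_map]
    constructor
    · rintro ⟨-, b', hb', h⟩
      rwa [← Subtype.ext h]
    · intro hb
      exact ⟨mem_univ _, b, hb, rfl⟩
  · intro S hS
    have h4 : (univ.filter fun b : It n => b.1 ∈ S).card = S.card := by
      conv_rhs => rw [← filter_map_eq (mem_powerset.1 (mem_filter.1 hS).1)]
      rw [card_map]
    rw [h4, boxes_eq, card_map]

lemma tiling_iff {n : ℕ} (R : Finset (It n)) : Tiling n (R.map (emb n)) ↔ Tg n R := by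
  constructor
  · intro H x hx
    obtain ⟨B, ⟨hB, hc⟩, hu⟩ := H fun i => ⟨x i, hx i⟩
    obtain ⟨b, hb, rfl⟩ := Finset.mem_map.1 hB
    exact ⟨b, ⟨hb, hc⟩, fun b' hb' => Subtype.ext (hu b'.1 ⟨mem_map_of_mem _ hb'.1, hb'.2⟩)⟩
  · intro H x
    obtain ⟨b, ⟨hb, hc⟩, hu⟩ := H (fun i => (x i : ℕ)) (fun i => (x i).2)
    refine ⟨b.1, ⟨mem_map_of_mem (emb n) hb, hc⟩, ?_⟩
    rintro B ⟨hB, hc'⟩
    obtain ⟨b', hb', rfl⟩ := Finset.mem_map.1 hB
    exact congrArg Subtype.val (hu b' ⟨hb', hc'⟩)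

lemma Td_eq (d : ℝ) (n : ℕ) (p : ℝ) : Td d n p = Pool.Agent.helper7.Alm.Td d n p := by
  have e0 := sum_eq n p
    (fun S => ∃ R ⊆ boxes n, Tiling n R ∧ ((R \ S).card : ℝ) ≤ d * 2 ^ n)
  have e1 : Td d n p = Pr p (fun ω : It n → Bool => ∃ R ⊆ boxes n, Tiling n R ∧
      ((R \ (univ.filter fun b => ω b = true).map (emb n)).card : ℝ) ≤ d * 2 ^ n) := by
    unfold Td
    convert e0
  rw [e1]
  have key : ∀ (ω : It n → Bool) (R : Finset (It n)),
      (R.map (emb n) \ (univ.filter fun b => ω b = true).map (emb n)).card = cl ω R := by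
    intro ω R
    rw [← Finset.map_sdiff, card_map]
    unfold cl
    congr 1
    ext b
    simp
  refine Pr_congr fun ω => ?_
  constructor
  · rintro ⟨R, hR, h1, h2⟩
    rw [← filter_map_eq hR] at h1 h2
    rw [key] at h2
    have h3 := kap_le_cl (ω := ω) ((tiling_iff _).1 h1)
    refine le_trans ?_ h2
    exact_mod_cast h3
  · intro h
    obtain ⟨R, h1, h2⟩ := exists_kap ω
    refine ⟨R.map (emb n), ?_, (tiling_iff R).2 h1, ?_⟩
    · rw [boxes_eq]
      exact map_subset_map.2 (subset_univ _)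
    · rw [key, h2]
      exact h

lemma T_eq (n : ℕ) (p : ℝ) : T n p = Pool.Agent.helper17.DyS.T n p := by
  have e0 := sum_eq n p (fun S => ∃ R ⊆ S, Tiling n R)
  have e1 : T n p = Pr p (fun ω : It n → Bool =>
      ∃ R ⊆ (univ.filter fun b => ω b = true).map (emb n), Tiling n R) := by
    unfold T
    convert e0
  rw [e1]
  refine Pr_congr fun ω => ?_
  rw [← kap_zero]
  constructor
  · rintro ⟨R, hR, h1⟩
    have hb : R ⊆ boxes n := hR.trans (by
      rw [boxes_eq]
      exact map_subset_map.2 (subset_univ _))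
    rw [← filter_map_eq hb] at h1
    refine Nat.le_zero.1 ((kap_le_cl (ω := ω) ((tiling_iff _).1 h1)).trans ?_)
    unfold cl
    rw [Nat.le_zero, card_eq_zero, filter_eq_empty_iff]
    intro b hb' hω
    obtain ⟨b', hb1, hb2⟩ := Finset.mem_map.1 (hR (mem_filter.1 hb').2)
    have h3 : b' = b := Subtype.ext hb2
    rw [h3] at hb1
    rw [(mem_filter.1 hb1).2] at hω
    exact absurd hω (by simp)
  · intro h
    obtain ⟨R, h1, h2⟩ := exists_kap ω
    rw [h] at h2
    refine ⟨R.map (emb n), ?_, (tiling_iff R).2 h1⟩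
    refine map_subset_map.2 fun b hb => mem_filter.2 ⟨mem_univ _, ?_⟩
    unfold cl at h2
    rw [card_eq_zero, filter_eq_empty_iff] at h2
    have := h2 hb
    simpa using this

end

/-- Let `κ` be the least number of unavailable boxes in a tiling of the unit cube by boxes of order
`n`.  Then `κ / 2 ^ n` tends to `ρ p`, with exponential bounds in `2 ^ n`, where `ρ` is continuous,
positive and strictly decreasing on `[0, ps)` and zero on `(ps, 1]`, and `1 / 8 ≤ ps ≤ crit T`.  For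
`0 < d < 1` the tilings with at most `d * 2 ^ n` unavailable boxes have a unique critical point, at
which `ρ` takes the value `d`. -/
theorem result :
    ∃ (ρ : ℝ → ℝ) (ps : ℝ), ContinuousOn ρ (Set.Icc 0 1) ∧ ρ 0 = 1 ∧ 1 / 8 ≤ ps ∧ ps ≤ crit T ∧
      (∀ p p' : ℝ, 0 ≤ p → p < p' → p' ≤ ps → ρ p' < ρ p) ∧
      (∀ p : ℝ, ps ≤ p → p ≤ 1 → ρ p = 0) ∧
      (∀ p : ℝ, 0 ≤ p → p ≤ 1 → ∀ n : ℕ,
        T n p ≤ (8 * p) ^ 2 ^ n ∧ T n p ≤ Real.exp (-(ρ p ^ 2 / 4 * 2 ^ n))) ∧
      (∀ p : ℝ, ps < p → p ≤ 1 → Tendsto (fun n => Real.log (T n p) / 2 ^ n) atTop (nhds 0)) ∧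
      (∀ p : ℝ, 0 ≤ p → p ≤ 1 →
        (∀ d : ℝ, d ≤ ρ p → ∀ n : ℕ, Td d n p ≤ Real.exp (-((ρ p - d) ^ 2 / 4 * 2 ^ n))) ∧
        ∀ d : ℝ, ρ p < d → ∃ N : ℕ, ∀ n : ℕ, N ≤ n →
          1 - Real.exp (-((d - ρ p) ^ 2 / 16 * 2 ^ n)) ≤ Td d n p) ∧
      (∀ d : ℝ, 0 < d → d < 1 → 0 < crit (Td d) ∧ crit (Td d) < ps ∧ ρ (crit (Td d)) = d ∧
        (∀ p : ℝ, 0 ≤ p → p < crit (Td d) → Tendsto (fun n => Td d n p) atTop (nhds 0)) ∧
        ∀ p : ℝ, crit (Td d) < p → p ≤ 1 → Tendsto (fun n => Td d n p) atTop (nhds 1)) ∧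
      Tendsto (fun d => crit (Td d)) (nhdsWithin 0 (Set.Ioi 0)) (nhds ps) := by
  have hT : T = Pool.Agent.helper17.DyS.T := funext fun n => funext fun p => T_eq n p
  have hTd : Td = Pool.Agent.helper7.Alm.Td :=
    funext fun d => funext fun n => funext fun p => Td_eq d n p
  rw [hT, hTd]
  exact Pool.Agent.helper7.Alm.final

end Pool.Agent.Results.MP_74284e_pr.AlmostTilings
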