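import Pool.Agent.helper7.BlP.Fixed

set_option autoImplicit false
open scoped Classical

/-!
# MP_74284e_pr: the branching three-dimensional dyadic tilings have a unique critical point

For a tiling of the unit cube by dyadic boxes of order `n`, a block is a dyadic box which is a union
of boxes of the tiling.  A block `B` is `h`-good if its order is at least `n - h` or if it contains
two disjoint `h`-good blocks whose orders are at most `order B + h`.  The tiling is `h`-branching if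
the unit cube is `h`-good.
-/

namespace Pool.Agent.Results.MP_74284e_pr.BranchingTilings

open Finset Filter

/-- A dyadic box is given by its levels `k i` and its positions `a i`: it is the product of the
intervals `[a i / 2 ^ k i, (a i + 1) / 2 ^ k i]`. -/
abbrev Box : Type := (Fin 3 → ℕ) × (Fin 3 → ℕ)

/-- The order of a box, the sum of its levels. -/
def order (B : Box) : ℕ := ∑ i, B.1 i

/-- The unit cube. -/
def cube : Box := (0, 0)

/-- The box `B` is contained in the box `C`. -/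
def Sub (B C : Box) : Prop := ∀ i, C.1 i ≤ B.1 i ∧ B.2 i / 2 ^ (B.1 i - C.1 i) = C.2 i

/-- The dyadic boxes of order `n` in the unit cube. -/
noncomputable def boxes (n : ℕ) : Finset Box :=
  ((Fintype.piFinset fun _ => range (n + 1)) ×ˢ (Fintype.piFinset fun _ => range (2 ^ n))).filter
    fun B => order B = n ∧ ∀ i, B.2 i < 2 ^ B.1 i

/-- The cell `x` is contained in the box `B` (whose levels are at most `n`); the cells are the cubes
of side `2 ^ (-n)` of the unit cube, given by their positions `x i < 2 ^ n`. -/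
def Has (n : ℕ) (B : Box) (x : Fin 3 → Fin (2 ^ n)) : Prop :=
  ∀ i, (x i : ℕ) / 2 ^ (n - B.1 i) = B.2 i

/-- The boxes of `R` tile the unit cube. -/
def Tiling (n : ℕ) (R : Finset Box) : Prop := ∀ x : Fin 3 → Fin (2 ^ n), ∃! b, b ∈ R ∧ Has n b x

/-- The box `B` is a union of boxes of `R`. -/
def Union (n : ℕ) (R : Finset Box) (B : Box) : Prop :=
  ∀ x : Fin 3 → Fin (2 ^ n), Has n B x → ∃ b ∈ R, Sub b B ∧ Has n b x

/-- The `h`-good blocks of `R`. -/
inductive Good (h n : ℕ) (R : Finset Box) : Box → Prop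
  | small (B : Box) : Union n R B → n ≤ order B + h → Good h n R B
  | two (B C D : Box) : Union n R B → Sub C B → Sub D B → (∀ x, ¬ (Has n C x ∧ Has n D x)) →
      order C ≤ order B + h → order D ≤ order B + h → Good h n R C → Good h n R D → Good h n R B

/-- The probability that the unit cube has a tiling by available boxes of order `n`, if each dyadic
box of order `n` is available independently with probability `p`. -/
noncomputable def T (n : ℕ) (p : ℝ) : ℝ :=
  ∑ S ∈ (boxes n).powerset.filter (fun S => ∃ R ⊆ S, Tiling n R),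
    p ^ S.card * (1 - p) ^ ((boxes n).card - S.card)

/-- The probability that the unit cube has an `h`-branching tiling by available boxes of order
`n`. -/
noncomputable def Th (h n : ℕ) (p : ℝ) : ℝ :=
  ∑ S ∈ (boxes n).powerset.filter (fun S => ∃ R ⊆ S, Tiling n R ∧ Good h n R cube),
    p ^ S.card * (1 - p) ^ ((boxes n).card - S.card)

/-- The critical point: the infimum of all `p` for which `f n p` tends to `1`. -/
noncomputable def crit (f : ℕ → ℝ → ℝ) : ℝ :=
  sInf {p : ℝ | 0 ≤ p ∧ p ≤ 1 ∧ Tendsto (fun n => f n p) atTop (nhds 1)}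

section

open Pool.Agent.helper17.Dya Pool.Agent.helper17.DyS Pool.Agent.helper7.Blk

lemma mem_boxes {n : ℕ} {B : Box} : B ∈ boxes n ↔ Vl n B := by
  unfold boxes
  rw [mem_filter, mem_product, Fintype.mem_piFinset, Fintype.mem_piFinset]
  constructor
  · rintro ⟨-, h1, h2⟩
    exact ⟨h1, h2⟩
  · intro h
    exact ⟨⟨fun i => mem_range.2 (Nat.lt_succ_of_le (h.le i)), fun i => mem_range.2 (h.lt i)⟩,
      h.1, h.2⟩

/-- the embedding of the boxes of order `n` -/
def emb (n : ℕ) : It n ↪ Box := ⟨Subtype.val, Subtype.val_injective⟩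

lemma boxes_eq (n : ℕ) : boxes n = (univ : Finset (It n)).map (emb n) := by
  ext B
  rw [mem_boxes, Finset.mem_map]
  constructor
  · intro h
    exact ⟨⟨B, h⟩, mem_univ _, rfl⟩
  · rintro ⟨b, -, rfl⟩
    exact b.2

lemma filter_map_eq {n : ℕ} {S : Finset Box} (h1 : S ⊆ boxes n) :
    (univ.filter fun b : It n => b.1 ∈ S).map (emb n) = S := by
  ext B
  rw [Finset.mem_map]
  constructor
  · rintro ⟨b, hb, rfl⟩
    exact (mem_filter.1 hb).2
  · intro hB
    exact ⟨⟨B, mem_boxes.1 (h1 hB)⟩, mem_filter.2 ⟨mem_univ _, hB⟩, rfl⟩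

lemma sum_eq (n : ℕ) (p : ℝ) (Q : Finset Box → Prop) :
    ∑ S ∈ (boxes n).powerset.filter Q, p ^ S.card * (1 - p) ^ ((boxes n).card - S.card) =
      Pr p fun ω : It n → Bool => Q ((univ.filter fun b => ω b = true).map (emb n)) := by
  rw [← sum_powerset_eq (p := p) (univ : Finset (It n)) (fun S => Q (S.map (emb n)))]
  refine sum_nbij' (fun S => univ.filter fun b : It n => b.1 ∈ S) (fun S => S.map (emb n))
    ?_ ?_ ?_ ?_ ?_
  · intro S hS
    obtain ⟨h1, h2⟩ := mem_filter.1 hS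
    rw [mem_powerset] at h1
    refine mem_filter.2 ⟨mem_powerset.2 (subset_univ _), ?_⟩
    rwa [filter_map_eq h1]
  · intro S hS
    refine mem_filter.2 ⟨mem_powerset.2 ?_, (mem_filter.1 hS).2⟩
    rw [boxes_eq]
    exact map_subset_map.2 (subset_univ _)
  · intro S hS
    exact filter_map_eq (mem_powerset.1 (mem_filter.1 hS).1)
  · intro S _
    ext b
    rw [mem_filter, Finset.mem_map]
    constructor
    · rintro ⟨-, b', hb', h⟩
      rwa [← Subtype.ext h]
    · intro hb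
      exact ⟨mem_univ _, b, hb, rfl⟩
  · intro S hS
    have h4 : (univ.filter fun b : It n => b.1 ∈ S).card = S.card := by
      conv_rhs => rw [← filter_map_eq (mem_powerset.1 (mem_filter.1 hS).1)]
      rw [card_map]
    rw [h4, boxes_eq, card_map]

lemma un_iff {n : ℕ} {R : Finset Box} (hR : ∀ b ∈ R, Vl n b) (B : Box) :
    Union n R B ↔ Un {b : It n | b.1 ∈ R} B := by
  constructor
  · intro h x hx hB
    obtain ⟨b, hb, h1, h2⟩ := h (fun i => ⟨x i, hx i⟩) hB
    exact ⟨⟨b, hR b hb⟩, hb, h1, h2⟩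
  · intro h x hB
    obtain ⟨b, hb, h1, h2⟩ := h (fun i => (x i : ℕ)) (fun i => (x i).2) hB
    exact ⟨b.1, hb, h1, h2⟩

lemma Vp_of_Sb {B C : Box} (hB : Vp B) (h : Sb C B) : Vp C := by
  intro i
  have h1 := (h i).2
  have h2 : C.2 i / 2 ^ (C.1 i - B.1 i) < 2 ^ B.1 i := by
    rw [h1]
    exact hB i
  rw [Nat.div_lt_iff_lt_mul (by positivity), ← pow_add] at h2
  have h3 := (h i).1
  rwa [show B.1 i + (C.1 i - B.1 i) = C.1 i by omega] at h2

lemma good_of {h n : ℕ} {R : Finset Box} (hR : ∀ b ∈ R, Vl n b) {B : Box} (H : Good h n R B) :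
    Vp B → Pool.Agent.helper7.Blk.Good h {b : It n | b.1 ∈ R} B := by
  induction H with
  | small B hU hn => exact fun _ => .small B ((un_iff hR B).1 hU) hn
  | two B C D hU hC hD hCD hC2 hD2 _ _ ihC ihD =>
    intro hB
    have vC := Vp_of_Sb hB hC
    have vD := Vp_of_Sb hB hD
    exact .two B C D ((un_iff hR B).1 hU) ⟨vC, hC, hC2⟩ ⟨vD, hD, hD2⟩
      (fun x hx h1 h2 => hCD (fun i => ⟨x i, hx i⟩) ⟨h1, h2⟩) (ihC vC) (ihD vD)

lemma of_good {h n : ℕ} {R : Finset Box} (hR : ∀ b ∈ R, Vl n b) {B : Box}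
    (H : Pool.Agent.helper7.Blk.Good h {b : It n | b.1 ∈ R} B) : Good h n R B := by
  induction H with
  | small B hU hn => exact .small B ((un_iff hR B).2 hU) hn
  | two B C D hU hC hD hCD _ _ ihC ihD =>
    exact .two B C D ((un_iff hR B).2 hU) hC.2.1 hD.2.1
      (fun x hx => hCD (fun i => (x i : ℕ)) (fun i => (x i).2) hx.1 hx.2) hC.2.2 hD.2.2 ihC ihD

lemma tiling_iff {n : ℕ} {R : Finset Box} (hR : ∀ b ∈ R, Vl n b) :
    Tiling n R ↔ ∀ x : Fin 3 → ℕ, (∀ i, x i < 2 ^ n) →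
      Cv n Pool.Agent.helper17.DyS.cube x → ∃! b, b ∈ {b : It n | b.1 ∈ R} ∧ Cv n b.1 x := by
  constructor
  · intro H x hx _
    obtain ⟨b, ⟨hb, hc⟩, hu⟩ := H fun i => ⟨x i, hx i⟩
    exact ⟨⟨b, hR b hb⟩, ⟨hb, hc⟩, fun b' hb' => Subtype.ext (hu b'.1 hb')⟩
  · intro H x
    obtain ⟨b, ⟨hb, hc⟩, hu⟩ := H (fun i => (x i : ℕ)) (fun i => (x i).2) (fun i => by
      have : (x i : ℕ) / 2 ^ (n - 0) = 0 := Nat.div_eq_of_lt (by simp)
      exact this)
    exact ⟨b.1, ⟨hb, hc⟩, fun b' hb' => congrArg Subtype.val (hu ⟨b', hR b' hb'.1⟩ hb')⟩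

lemma Th_eq (h n : ℕ) (p : ℝ) : Th h n p = TB h n p := by
  have e0 := sum_eq n p (fun S => ∃ R ⊆ S, Tiling n R ∧ Good h n R cube)
  have e1 : Th h n p = Pr p (fun ω : It n → Bool =>
      ∃ R ⊆ (univ.filter fun b => ω b = true).map (emb n), Tiling n R ∧ Good h n R cube) := by
    unfold Th
    convert e0
  rw [e1]
  refine Pr_congr fun ω => ?_
  constructor
  · rintro ⟨R, hRS, h1, h2⟩
    have hR : ∀ b ∈ R, Vl n b := by
      intro b hb
      obtain ⟨b', -, rfl⟩ := Finset.mem_map.1 (hRS hb)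
      exact b'.2
    refine ⟨{b : It n | b.1 ∈ R}, fun b hb => ⟨?_, Sb_cube b⟩, (tiling_iff hR).1 h1,
      good_of hR h2 Vl_cube.2⟩
    obtain ⟨b', hb', h3⟩ := Finset.mem_map.1 (hRS hb)
    have h4 : b' = b := Subtype.ext h3
    rw [← h4]
    exact (mem_filter.1 hb').2
  · rintro ⟨R, h1, h2, h3⟩
    have hR : ∀ b ∈ (univ.filter fun b : It n => b ∈ R).map (emb n), Vl n b := by
      intro b hb
      obtain ⟨b', -, rfl⟩ := Finset.mem_map.1 hb
      exact b'.2
    have hE : {b : It n | b.1 ∈ (univ.filter fun b : It n => b ∈ R).map (emb n)} = R := by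
      ext b
      constructor
      · intro hb
        obtain ⟨b', hb', h4⟩ := Finset.mem_map.1 (show b.1 ∈ _ from hb)
        have h5 : b' = b := Subtype.ext h4
        rw [← h5]
        exact (mem_filter.1 hb').2
      · intro hb
        exact Finset.mem_map.2 ⟨b, mem_filter.2 ⟨mem_univ _, hb⟩, rfl⟩
    refine ⟨(univ.filter fun b : It n => b ∈ R).map (emb n), map_subset_map.2 fun b hb => ?_,
      (tiling_iff hR).2 ?_, of_good hR ?_⟩
    · exact mem_filter.2 ⟨mem_univ _, (h1 b (mem_filter.1 hb).2).1⟩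
    · rw [hE]
      exact h2
    · rw [hE]
      exact h3

lemma T_eq (n : ℕ) (p : ℝ) : T n p = Pool.Agent.helper17.DyS.T n p := by
  have e0 := sum_eq n p (fun S => ∃ R ⊆ S, Tiling n R)
  have e1 : T n p = Pr p (fun ω : It n → Bool =>
      ∃ R ⊆ (univ.filter fun b => ω b = true).map (emb n), Tiling n R) := by
    unfold T
    convert e0
  rw [e1, ← Pool.Agent.helper7.BlP.TB_eq (le_refl n), ← Th_eq]
  have e2 := sum_eq n p (fun S => ∃ R ⊆ S, Tiling n R ∧ Good n n R cube)
  have e3 : Th n n p = Pr p (fun ω : It n → Bool =>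
      ∃ R ⊆ (univ.filter fun b => ω b = true).map (emb n), Tiling n R ∧ Good n n R cube) := by
    unfold Th
    convert e2
  rw [e3]
  refine Pr_congr fun ω => ?_
  constructor
  · rintro ⟨R, hR, h1⟩
    refine ⟨R, hR, h1, .small _ ?_ (Nat.le_add_left _ _)⟩
    intro x _
    obtain ⟨b, ⟨hb, hc⟩, -⟩ := h1 x
    obtain ⟨b', -, rfl⟩ := Finset.mem_map.1 (hR hb)
    exact ⟨_, hb, Sb_cube b', hc⟩
  · rintro ⟨R, hR, h1, -⟩
    exact ⟨R, hR, h1⟩

end

/-- The `h`-branching tilings have a unique critical point `crit (Th h)`, for every `h ≥ 1`.  These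
critical points decrease to the critical point `crit T` of all tilings, which is the unique critical
point of the `h (n)`-branching tilings if `h (n) → ∞` and `h (n) / n → 0`.  If `h ≥ n` then all
tilings by boxes of order `n` are `h`-branching. -/
theorem result :
    (∀ (h n : ℕ) (p : ℝ), n ≤ h → Th h n p = T n p) ∧
    (∀ h : ℕ, 1 ≤ h →
      (∀ p : ℝ, 0 ≤ p → p < crit (Th h) → ∃ c : ℝ, 0 < c ∧ ∃ N : ℕ, ∀ n : ℕ, N ≤ n →
        Th h n p ≤ Real.exp (-(c * (2 : ℝ) ^ ((n : ℝ) / h)))) ∧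
      (∀ p : ℝ, crit (Th h) < p → p ≤ 1 → ∃ c : ℝ, 0 < c ∧ ∃ N : ℕ, ∀ n : ℕ, N ≤ n →
        1 - Real.exp (-(c * (n : ℝ) ^ 2)) ≤ Th h n p)) ∧
    (5 / 32 ≤ crit T ∧ (∀ h : ℕ, 1 ≤ h → crit T ≤ crit (Th h) ∧ crit (Th h) ≤ 7 / 8) ∧
      (∀ h h' : ℕ, 1 ≤ h → h ≤ h' → crit (Th h') ≤ crit (Th h)) ∧
      Tendsto (fun h => crit (Th h)) atTop (nhds (crit T))) ∧
    (∀ p : ℝ, 0 ≤ p → p < crit T → ∃ c : ℝ, 0 < c ∧ ∃ N : ℕ, ∀ n : ℕ, N ≤ n →
      ∀ h : ℕ, 1 ≤ h → (h : ℝ) ≤ c * n →
        Th h n p ≤ Real.exp (-(c * n * (2 : ℝ) ^ (c * n / h)))) ∧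
    (∀ h : ℕ → ℕ, Tendsto h atTop atTop →
      (∀ p : ℝ, crit T < p → p ≤ 1 → Tendsto (fun n => Th (h n) n p) atTop (nhds 1)) ∧
      (Tendsto (fun n => (h n : ℝ) / n) atTop (nhds 0) →
        ∀ p : ℝ, 0 ≤ p → p < crit T → Tendsto (fun n => Th (h n) n p) atTop (nhds 0))) := by
  have hTh : Th = Pool.Agent.helper7.Blk.TB :=
    funext fun h => funext fun n => funext fun p => Th_eq h n p
  have hT : T = Pool.Agent.helper17.DyS.T := funext fun n => funext fun p => T_eq n p
  have hc : crit Pool.Agent.helper17.DyS.T = Pool.Agent.helper17.DyS.pc := rfl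
  have hch : ∀ h, crit (Pool.Agent.helper7.Blk.TB h) = Pool.Agent.helper7.BlP.pch h :=
    fun h => rfl
  rw [hTh, hT, hc]
  simp only [hch]
  exact ⟨fun h n p hn => Pool.Agent.helper7.BlP.TB_eq hn,
    fun h hh => ⟨fun p h0 hp => Pool.Agent.helper7.BlP.underp hh h0 hp,
      fun p hp h1 => Pool.Agent.helper7.BlP.overp hh hp h1⟩,
    ⟨Pool.Agent.helper17.DyS.le_pc, fun h hh => ⟨Pool.Agent.helper7.BlP.pc_le_pch hh,
      Pool.Agent.helper7.BlP.pch_le_seven hh⟩, fun h h' hh hle =>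
      Pool.Agent.helper7.BlP.pch_anti hh hle, Pool.Agent.helper7.BlP.pch_tendsto⟩,
    fun p h0 hp => Pool.Agent.helper7.Blk.TB_below h0 hp,
    fun h hh => ⟨fun p hp h1 => Pool.Agent.helper7.BlP.TB_seq_over hp h1 h hh,
      fun hh2 p h0 hp => Pool.Agent.helper7.Blk.TB_seq_below h0 hp h hh hh2⟩⟩

end Pool.Agent.Results.MP_74284e_pr.BranchingTilings
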