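import Pool.Agent.helper17.Dya.Main

set_option autoImplicit false
open scoped Classical

/-!
# MP_74284e_pr: dyadic tilings in dimension three, the bound `5 / 32`

Every horizontal slice of a tiling is a dyadic tiling of the square by rectangles of different
orders, and such a tiling is obtained by successive halving.  The probability `f (k + 1)` that a
given slice can be filled with rectangles of order at most `k + 1` is therefore
`1 - (1 - p) (1 - P (X or Y))`, where `X` and `Y` are the two halvings, each of probability
`f k ^ 2`.  Both events are increasing, so that Harris' inequality gives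
`P (X or Y) ≤ 1 - (1 - f k ^ 2) ^ 2`, and `f k ≤ 1 / 3` for all `k` follows by induction if
`p ≤ 5 / 32`.  Finally `2 ^ r` slices are considered which share only boxes of order close to `n`
in these two coordinates.
-/

namespace Pool.Agent.Results.MP_74284e_pr.NoTilingBelow

/-- Keep each dyadic box of order `n` in the unit cube independently with probability `p`.  If
`p ≤ 5 / 32`, then the probability that kept boxes tile the cube tends to zero. -/
theorem result (p : ℝ) (h0 : 0 ≤ p) (hp : p ≤ 5 / 32) :
    Filter.Tendsto (fun n : ℕ =>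
        ∑ S ∈ ((Finset.univ : Finset ((Fin 3 → Fin (n+1)) × (Fin 3 → Fin (2^n)))).filter
              (fun b => ∑ i, (b.1 i : ℕ) = n ∧ ∀ i, (b.2 i : ℕ) < 2 ^ (b.1 i : ℕ))).powerset.filter
              (fun S => ∃ R ⊆ S, ∀ c : Fin 3 → Fin (2^n),
                ∃! b, b ∈ R ∧ ∀ i, (c i : ℕ) / 2 ^ (n - (b.1 i : ℕ)) = (b.2 i : ℕ)),
          p ^ S.card * (1 - p) ^ (((Finset.univ : Finset ((Fin 3 → Fin (n+1)) × (Fin 3 → Fin (2^n)))).filter
              (fun b => ∑ i, (b.1 i : ℕ) = n ∧ ∀ i, (b.2 i : ℕ) < 2 ^ (b.1 i : ℕ))).card - S.card))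
        Filter.atTop (nhds 0) := by
  have h := Pool.Agent.helper17.Dya.main h0 hp
  refine h.congr fun n => ?_
  unfold Pool.Agent.helper17.Dya.T Pool.Agent.helper17.Dya.boxes Pool.Agent.helper17.Dya.Tiles
  congr!

end Pool.Agent.Results.MP_74284e_pr.NoTilingBelow
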