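import Pool.Agent.helper17.DyS.Crit

set_option autoImplicit false
open scoped Classical

/-!
# MP_74284e_pr: three-dimensional dyadic tilings on both sides of the critical point

Above the critical point the probability of failure is `exp (-Θ(n ^ 2))`; below the critical point
the probability of a tiling is exponentially small for a set of orders `n` of positive lower
density.

The steps are: the inequality of Talagrand (Kahn, Kalai and Linial) for the product measure with
density `p` together with the symmetries of the cube gives that the total influence is at least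
`c n T (1 - T)`; an adaptive search for a tiling cuts the cube along a path of shapes and reveals a
box completely only if one of its two halves fails.  If the failure probabilities are small on the
scales between `k` and `n`, the inequality of O'Donnell, Saks, Schramm and Servedio for this search
gives that the total influence is at least `c (n / k) ^ 2 T (1 - T)`, and for the event together
with its copy in which all boxes inside of the blocks of order `k` are resampled, combined with a
logarithmic Sobolev inequality for these boxes, that it is at least `c (n ^ 2 / k) T (1 - T)`.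
Slabs of three directions share no box, and `1 - T (2 n + 1) ≤ (2 ^ (n + 1) (1 - T n)) ^ 3`.
-/

namespace Pool.Agent.Results.MP_74284e_pr.SharpWindows

/-- The probability that the unit cube has a tiling by available boxes of order `n`, if each dyadic
box of order `n` is available independently with probability `p`. -/
noncomputable def T (n : ℕ) (p : ℝ) : ℝ :=
  ∑ S ∈ ((Finset.univ : Finset ((Fin 3 → Fin (n+1)) × (Fin 3 → Fin (2^n)))).filter
        (fun b => ∑ i, (b.1 i : ℕ) = n ∧ ∀ i, (b.2 i : ℕ) < 2 ^ (b.1 i : ℕ))).powerset.filter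
        (fun S => ∃ R ⊆ S, ∀ c : Fin 3 → Fin (2^n),
          ∃! b, b ∈ R ∧ ∀ i, (c i : ℕ) / 2 ^ (n - (b.1 i : ℕ)) = (b.2 i : ℕ)),
    p ^ S.card * (1 - p) ^ (((Finset.univ : Finset ((Fin 3 → Fin (n+1)) × (Fin 3 → Fin (2^n)))).filter
        (fun b => ∑ i, (b.1 i : ℕ) = n ∧ ∀ i, (b.2 i : ℕ) < 2 ^ (b.1 i : ℕ))).card - S.card)

lemma T_eq (n : ℕ) (p : ℝ) : T n p = Pool.Agent.helper17.DyS.T n p := by
  rw [Pool.Agent.helper17.DyS.T_eq_Dya]
  unfold T Pool.Agent.helper17.Dya.T Pool.Agent.helper17.Dya.boxes Pool.Agent.helper17.Dya.Tiles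
  congr!

/-- There is a critical point `pc`, which lies between `5 / 32` and `√3 / 2`, such that
* `pc < p` if and only if `1 - T n p < 8 ^ (-(n + 1))` for some `n`;
* for `pc < p < 1` the probability `1 - T n p` lies between `exp (-C n ^ 2)` and `exp (-c n ^ 2)`
  for all large `n`;
* for `p < pc` every interval `[k, K k]` of orders contains a block `[(1 - c) n, n]` of orders `j`
  with `T j p ≤ exp (-c j)`, and the set of all `n` with `T n p ≤ exp (-c n)` has positive lower
  density. -/
theorem result : ∃ pc : ℝ, 5 / 32 ≤ pc ∧ pc ≤ √3 / 2 ∧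
    (∀ p : ℝ, 0 ≤ p → p ≤ 1 → (pc < p ↔ ∃ n : ℕ, 1 - T n p < (1 / 8) ^ (n + 1))) ∧
    (∀ p : ℝ, pc < p → p < 1 → ∃ c C : ℝ, 0 < c ∧ 0 < C ∧ ∃ N : ℕ, ∀ n : ℕ, N ≤ n →
      Real.exp (-(C * (n : ℝ) ^ 2)) ≤ 1 - T n p ∧ 1 - T n p ≤ Real.exp (-(c * (n : ℝ) ^ 2))) ∧
    (∀ p : ℝ, 0 ≤ p → p < pc → ∃ K : ℕ, ∃ c : ℝ, 0 < c ∧ c ≤ 1 ∧ ∃ N : ℕ, ∀ k : ℕ, N ≤ k →
      ∃ n : ℕ, k ≤ n ∧ n ≤ K * k ∧
        ∀ j : ℕ, (1 - c) * n ≤ j → j ≤ n → T j p ≤ Real.exp (-(c * j))) ∧
    (∀ p : ℝ, 0 ≤ p → p < pc → ∃ c : ℝ, 0 < c ∧ ∃ N : ℕ, ∀ M : ℕ, N ≤ M →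
      c * M ≤ (((Finset.range M).filter fun n => T n p ≤ Real.exp (-(c * n))).card : ℝ)) := by
  have hT : T = Pool.Agent.helper17.DyS.T := funext fun n => funext fun p => T_eq n p
  rw [hT]
  exact ⟨Pool.Agent.helper17.DyS.pc, Pool.Agent.helper17.DyS.le_pc,
    Pool.Agent.helper17.DyS.pc_le_sqrt, fun p h0 h1 => Pool.Agent.helper17.DyS.criterion h0 h1,
    fun p h0 h1 => Pool.Agent.helper17.DyS.above h0 h1,
    fun p h0 h1 => Pool.Agent.helper17.DyS.below h0 h1,
    fun p h0 h1 => Pool.Agent.helper17.DyS.density h0 h1⟩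

end Pool.Agent.Results.MP_74284e_pr.SharpWindows
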